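import Pool.Agent.Helper90.Tie.Main

/-! Every tie knot is a two-bridge knot. -/

namespace Pool.Agent.Results.MP_c2102d_gt.TwoBridge

open Pool.Agent.Helper90.Tie

/-- For every tie sequence the standard diagram of its tie knot is a link diagram of a link with
bridge number at most two. -/
theorem result (s : List Move) (hs : IsTieSequence s) :
    Fits 0 (tieDiagram s) 0 ∧ bridgeNumber (tieDiagram s) ≤ 2 :=
  bridgeNumber_tie hs

end Pool.Agent.Results.MP_c2102d_gt.TwoBridge
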